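import Mathlib
import Pool.Agent.H76Green.Main

/-!
# Sixteen classes in all dimensions, with a logarithmic rate
For every `n` there is a partition of `F_2^n` into sixteen classes such that every coset contained
in some `A_i + A_i` has codimension larger than `(log_2 n - 400) / 11`.
-/

set_option autoImplicit false

namespace Pool.Agent.Results.MP_0f9876_co.SixteenClasses

open Finset Module Pool.Agent.H76Green
open scoped Classical Pointwise

theorem p1 (C : ℕ) : (C + 1) ^ 6 ≤ 2 ^ (C + 20) := by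
  have h1 : C + 1 ≤ 6 * 2 ^ (C / 6) := by
    have h2 : C / 6 < 2 ^ (C / 6) := Nat.lt_two_pow_self
    omega
  calc (C + 1) ^ 6 ≤ (6 * 2 ^ (C / 6)) ^ 6 := Nat.pow_le_pow_left h1 6
    _ = 46656 * 2 ^ (C / 6 * 6) := by rw [mul_pow, ← pow_mul]; norm_num
    _ ≤ 2 ^ 20 * 2 ^ C := by
        apply Nat.mul_le_mul
        · norm_num
        · exact Nat.pow_le_pow_right (by norm_num) (by omega)
    _ = 2 ^ (C + 20) := by rw [← pow_add, add_comm]

theorem p2 (C : ℕ) : 2 * C + 2 ≤ 2 ^ (C / 10 + 40) := by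
  have h2 : C / 10 < 2 ^ (C / 10) := Nat.lt_two_pow_self
  calc 2 * C + 2 ≤ 20 * 2 ^ (C / 10) := by omega
    _ ≤ 2 ^ 40 * 2 ^ (C / 10) := Nat.mul_le_mul_right _ (by norm_num)
    _ = 2 ^ (C / 10 + 40) := by rw [← pow_add, add_comm]

/-- The colouring of H76Green with explicit parameters. -/
theorem col (C m : ℕ) (hm10 : 10 ≤ m) (hmC : C ≤ m) (hC6 : (C + 1) ^ 6 ≤ 2 ^ (m - 1))
    (hCC : 2 ^ C * (2 * C + 2) ≤ 2 ^ m) : C < 2 ^ (4 * m) * 2 ^ (6 * m) ∧
    ∃ f : (Fin (2 ^ (4 * m)) → Fin (2 ^ (6 * m)) → ZMod 2) → (Fin 6 × Bool) ⊕ (Fin 2 ⊕ Fin 2),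
      ∀ c, ∃ S : Set (Fin (2 ^ (4 * m)) → Fin (2 ^ (6 * m)) → ZMod 2),
        Hit C S ∧ ∀ x y, f x = c → f y = c → x + y ∉ S := by
  have hlin := lin_le_pow hm10
  set r := 2 ^ (5 * m) with hr
  have hr1 : 1 ≤ r := Nat.one_le_two_pow
  have hmr : 2 ^ m ≤ r := Nat.pow_le_pow_right (by norm_num) (by omega)
  have h10 : 2 ^ (4 * m) * 2 ^ (6 * m) = r * r := by rw [hr]; ring
  have h6 : 2 ^ (6 * m) = r * 2 ^ m := by rw [hr]; ring
  have hN1 : 2 ^ (11 * m) + 1 ≤ 2 ^ (11 * m + 1) := by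
    rw [pow_succ]
    have : 1 ≤ 2 ^ (11 * m) := Nat.one_le_two_pow
    omega
  have hCr : C + 1 ≤ r := by
    have : m < 2 ^ m := Nat.lt_two_pow_self
    omega
  refine ⟨?_, ?_⟩
  · rw [h10]
    nlinarith
  have hk0 : 0 < 2 ^ (6 * m) := by positivity
  have : Nonempty (Fin (2 ^ (4 * m))) := ⟨⟨0, by positivity⟩⟩
  refine core (ι := Fin (2 ^ (4 * m))) (κ := Fin (2 ^ (6 * m))) ⟨0, hk0⟩ C (2 ^ (11 * m - C))
    (2 ^ (11 * m)) (4 * r) r (2 ^ (2 * m - 1)) ?_ ?_ ?_ ?_ hr1 ?_ ?_ ?_ ?_ ?_ ?_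
  · rw [← pow_add]
    congr 1
    omega
  · rw [Fintype.card_fin, Fintype.card_fin, h10]
    nlinarith
  · rw [Fintype.card_fin, Fintype.card_fin, h10]
    have hpos : 0 < 2 ^ C := by positivity
    refine le_of_mul_le_mul_left (a := 2 ^ C) ?_ hpos
    calc 2 ^ C * ((r * r + 1) * C + 2) ≤ 2 ^ C * (r * r * (2 * C + 2)) := by
          apply Nat.mul_le_mul_left
          nlinarith
      _ = r * r * (2 ^ C * (2 * C + 2)) := by ring
      _ ≤ r * r * 2 ^ m := Nat.mul_le_mul_left _ hCC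
      _ = 2 ^ (11 * m) := by rw [hr]; ring
      _ = 2 ^ C * 2 ^ (11 * m - C) := by
          rw [← pow_add]
          congr 1
          omega
  · omega
  · rw [Fintype.card_fin, Fintype.card_fin]
    calc (2 ^ (11 * m) + 1) ^ (2 * (4 * r)) * (2 ^ (4 * m) * 2) * 4
        ≤ (2 ^ (11 * m + 1)) ^ (2 * (4 * r)) * (2 ^ (4 * m) * 2) * 4 := by
          apply Nat.mul_le_mul_right
          apply Nat.mul_le_mul_right
          exact Nat.pow_le_pow_left hN1 _
      _ = 2 ^ ((11 * m + 1) * (2 * (4 * r)) + (4 * m + 3)) := by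
          rw [← pow_mul, pow_add, pow_add 2 (4 * m) 3]
          ring
      _ ≤ 2 ^ (2 ^ (6 * m)) := by
          apply Nat.pow_le_pow_right (by norm_num)
          rw [h6]
          calc (11 * m + 1) * (2 * (4 * r)) + (4 * m + 3)
              ≤ (11 * m + 1) * (2 * (4 * r)) + (4 * m + 3) * r := by
                apply Nat.add_le_add_left
                exact Nat.le_mul_of_pos_right _ (by omega)
            _ = r * (92 * m + 11) := by ring
            _ ≤ r * 2 ^ m := Nat.mul_le_mul_left _ hlin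
  · rw [Fintype.card_fin, Fintype.card_fin, h10]
    calc (2 ^ (11 * m) + 1) ^ r * 4 ≤ (2 ^ (11 * m + 1)) ^ r * 4 := by
          apply Nat.mul_le_mul_right
          exact Nat.pow_le_pow_left hN1 _
      _ = 2 ^ ((11 * m + 1) * r + 2) := by
          rw [← pow_mul, pow_add]
          norm_num
      _ ≤ 2 ^ (r * r) := by
          apply Nat.pow_le_pow_right (by norm_num)
          nlinarith
  · rw [Fintype.card_fin]
    have h1 : 2 * m = (2 * m - 1) + 1 := by omega
    calc 2 ^ (4 * m) = (2 ^ (2 * m)) ^ 2 := by ring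
      _ = (2 ^ ((2 * m - 1) + 1)) ^ 2 := by rw [← h1]
      _ = 4 * (2 ^ (2 * m - 1)) ^ 2 := by rw [pow_succ]; ring
  · positivity
  · have h1 : 2 * 2 ^ (2 * m - 1) = 2 ^ (2 * m) := by
      rw [← pow_succ']
      congr 1
      omega
    rw [h1]
    generalize hw : 4 * r = w
    calc (2 ^ (11 * m)) ^ w * (C + 1) ^ (6 * (w + 1)) * 2 ^ w
        = (2 ^ (11 * m)) ^ w * ((C + 1) ^ 6) ^ (w + 1) * 2 ^ w := by rw [← pow_mul (C + 1)]
      _ ≤ (2 ^ (11 * m)) ^ w * (2 ^ (m - 1)) ^ (w + 1) * 2 ^ w := by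
          apply Nat.mul_le_mul_right
          apply Nat.mul_le_mul_left
          exact Nat.pow_le_pow_left hC6 _
      _ = 2 ^ (11 * m * w + (m - 1) * (w + 1) + w) := by
          rw [← pow_mul, ← pow_mul, pow_add, pow_add]
      _ ≤ 2 ^ (2 * m * (6 * (w + 1))) := by
          apply Nat.pow_le_pow_right (by norm_num)
          obtain ⟨t, rfl⟩ : ∃ t, m = t + 1 := ⟨m - 1, by omega⟩
          rw [Nat.add_sub_cancel]
          nlinarith
      _ = (2 ^ (2 * m)) ^ (6 * (w + 1)) := by rw [← pow_mul]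
  · rw [Fintype.card_fin, Fintype.card_fin, h10]
    calc (2 ^ (11 * m)) ^ r * 2 ^ (r ^ 2) * 2 ^ (r * r) * 4
        = 2 ^ (11 * m * r + r ^ 2 + r * r + 2) := by
          rw [← pow_mul, pow_add, pow_add, pow_add]
          norm_num
      _ ≤ 2 ^ (4 * r * (r + 1)) := by
          apply Nat.pow_le_pow_right (by norm_num)
          nlinarith


/-- The restriction of a function on `Fin n` to `Fin k`, `k ≤ n`. -/
theorem base (C m n : ℕ) (hn : n = 2 ^ (4 * m) * 2 ^ (6 * m))
    (hf0 : ∃ f : (Fin (2 ^ (4 * m)) → Fin (2 ^ (6 * m)) → ZMod 2) →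
      (Fin 6 × Bool) ⊕ (Fin 2 ⊕ Fin 2),
      ∀ c, ∃ S : Set (Fin (2 ^ (4 * m)) → Fin (2 ^ (6 * m)) → ZMod 2),
        Hit C S ∧ ∀ x y, f x = c → f y = c → x + y ∉ S) :
    ∃ f : (Fin n → ZMod 2) → Fin 16, ∀ (i : Fin 16) (S : AffineSubspace (ZMod 2) (Fin n → ZMod 2)),
      (S : Set (Fin n → ZMod 2)).Nonempty →
      (S : Set (Fin n → ZMod 2)) ⊆ {x | f x = i} + {x | f x = i} →
      finrank (ZMod 2) S.direction + C < n := by
  obtain ⟨f, hf⟩ := hf0
  have hfin : finrank (ZMod 2) (Fin n → ZMod 2) =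
      finrank (ZMod 2) (Fin (2 ^ (4 * m)) → Fin (2 ^ (6 * m)) → ZMod 2) := by
    rw [finrank_blocks, Fintype.card_fin, Fintype.card_fin, ← hn]
    exact finrank_fin_fun (ZMod 2)
  let e : (Fin n → ZMod 2) ≃ₗ[ZMod 2] (Fin (2 ^ (4 * m)) → Fin (2 ^ (6 * m)) → ZMod 2) :=
    LinearEquiv.ofFinrankEq _ _ hfin
  have hcard : Fintype.card ((Fin 6 × Bool) ⊕ (Fin 2 ⊕ Fin 2)) = 16 := by decide
  let g : (Fin 6 × Bool) ⊕ (Fin 2 ⊕ Fin 2) ≃ Fin 16 := Fintype.equivFinOfCardEq hcard
  refine ⟨fun x => g (f (e x)), fun i S hne hS => ?_⟩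
  by_contra hcon
  rw [not_lt] at hcon
  obtain ⟨s0, hs0⟩ := hne
  obtain ⟨H, hH, hH'⟩ := hf (g.symm i)
  obtain ⟨t, htH, htS⟩ := hH (S.map e.toLinearMap.toAffineMap)
    ⟨e s0, by rw [AffineSubspace.coe_map]; exact ⟨s0, hs0, rfl⟩⟩ (by
      rw [AffineSubspace.map_direction, ← hfin]
      have h1 : finrank (ZMod 2) (Submodule.map (e.toLinearMap.toAffineMap).linear
          S.direction) = finrank (ZMod 2) S.direction := by
        have h2 : (e.toLinearMap.toAffineMap).linear = e.toLinearMap := rfl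
        rw [h2]
        exact LinearEquiv.finrank_map_eq e S.direction
      rw [h1]
      have h3 : finrank (ZMod 2) (Fin n → ZMod 2) = n := finrank_fin_fun (ZMod 2)
      rw [h3]
      exact hcon)
  have htS' : t ∈ (S.map e.toLinearMap.toAffineMap : Set _) := htS
  rw [AffineSubspace.coe_map] at htS'
  obtain ⟨s, hs, rfl⟩ := htS'
  obtain ⟨x, hx, y, hy, hxy⟩ := Set.mem_add.1 (hS hs)
  have hx' : f (e x) = g.symm i := by
    rw [Equiv.eq_symm_apply]
    exact hx
  have hy' : f (e y) = g.symm i := by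
    rw [Equiv.eq_symm_apply]
    exact hy
  refine hH' (e x) (e y) hx' hy' ?_
  have h4 : e x + e y = e s := by rw [← hxy, map_add]
  rw [h4]
  exact htH

/-- Pull-back to larger dimensions. -/
theorem lift (C k n : ℕ) (hkn : k ≤ n)
    (h : ∃ f : (Fin k → ZMod 2) → Fin 16,
      ∀ (i : Fin 16) (S : AffineSubspace (ZMod 2) (Fin k → ZMod 2)),
      (S : Set (Fin k → ZMod 2)).Nonempty →
      (S : Set (Fin k → ZMod 2)) ⊆ {x | f x = i} + {x | f x = i} →
      finrank (ZMod 2) S.direction + C < k) :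
    ∃ f : (Fin n → ZMod 2) → Fin 16, ∀ (i : Fin 16) (S : AffineSubspace (ZMod 2) (Fin n → ZMod 2)),
      (S : Set (Fin n → ZMod 2)).Nonempty →
      (S : Set (Fin n → ZMod 2)) ⊆ {x | f x = i} + {x | f x = i} →
      finrank (ZMod 2) S.direction + C < n := by
  obtain ⟨f, hf⟩ := h
  let q : (Fin n → ZMod 2) →ₗ[ZMod 2] (Fin k → ZMod 2) :=
    LinearMap.funLeft (ZMod 2) (ZMod 2) (Fin.castLE hkn)
  have hq : Function.Surjective q :=
    LinearMap.funLeft_surjective_of_injective _ _ _ (Fin.castLE_injective hkn)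
  refine ⟨fun x => f (q x), fun i S hne hS => ?_⟩
  obtain ⟨s0, hs0⟩ := hne
  have h1 := hf i (S.map q.toAffineMap)
    ⟨q s0, by rw [AffineSubspace.coe_map]; exact ⟨s0, hs0, rfl⟩⟩ (by
      rw [AffineSubspace.coe_map]
      rintro _ ⟨s, hs, rfl⟩
      obtain ⟨x, hx, y, hy, hxy⟩ := Set.mem_add.1 (hS hs)
      refine Set.mem_add.2 ⟨q x, hx, q y, hy, ?_⟩
      rw [← map_add, hxy]
      rfl)
  rw [AffineSubspace.map_direction] at h1
  have h2 : (q.toAffineMap).linear = q := rfl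
  rw [h2] at h1
  have h3 : finrank (ZMod 2) (Submodule.map q S.direction) +
      finrank (ZMod 2) (LinearMap.ker (q.domRestrict S.direction)) =
      finrank (ZMod 2) S.direction := by
    have h4 := LinearMap.finrank_range_add_finrank_ker (q.domRestrict S.direction)
    rwa [LinearMap.range_domRestrict] at h4
  have h5 : finrank (ZMod 2) (LinearMap.ker (q.domRestrict S.direction)) ≤
      finrank (ZMod 2) (LinearMap.ker q) := by
    have h6 : (LinearMap.ker (q.domRestrict S.direction)).map S.direction.subtype ≤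
        LinearMap.ker q := by
      rintro _ ⟨x, hx, rfl⟩
      exact hx
    have h7 : finrank (ZMod 2) (LinearMap.ker (q.domRestrict S.direction)) =
        finrank (ZMod 2) ((LinearMap.ker (q.domRestrict S.direction)).map S.direction.subtype) :=
      LinearEquiv.finrank_eq
        (Submodule.equivMapOfInjective _ S.direction.subtype_injective _)
    rw [h7]
    exact Submodule.finrank_mono h6
  have h8 := LinearMap.finrank_range_add_finrank_ker q
  rw [LinearMap.range_eq_top.2 hq, finrank_top, finrank_fin_fun, finrank_fin_fun] at h8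
  omega

/-- **Sixteen classes, in every dimension.** For every `n` there is a partition of `F_2^n` into
sixteen sets `A_i` such that every nonempty affine subspace `S` contained in some `A_i + A_i`
satisfies `log_2 n < 11 codim S + 400` (`Nat.log 2 n` is the integer part of `log_2 n`). -/
theorem result (n : ℕ) :
    ∃ A : Fin 16 → Set (Fin n → ZMod 2), (⋃ i, A i) = Set.univ ∧
      (∀ i j, i ≠ j → Disjoint (A i) (A j)) ∧
      ∀ (i : Fin 16) (S : AffineSubspace (ZMod 2) (Fin n → ZMod 2)),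
        (S : Set (Fin n → ZMod 2)).Nonempty → (S : Set (Fin n → ZMod 2)) ⊆ A i + A i →
        Nat.log 2 n < 11 * (n - finrank (ZMod 2) S.direction) + 400 := by
  have main : ∃ f : (Fin n → ZMod 2) → Fin 16,
      ∀ (i : Fin 16) (S : AffineSubspace (ZMod 2) (Fin n → ZMod 2)),
      (S : Set (Fin n → ZMod 2)).Nonempty →
      (S : Set (Fin n → ZMod 2)) ⊆ {x | f x = i} + {x | f x = i} →
      Nat.log 2 n < 11 * (n - finrank (ZMod 2) S.direction) + 400 := by
    rcases lt_or_ge (Nat.log 2 n) 400 with hL | hL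
    · exact ⟨fun _ => 0, fun i S _ _ => by omega⟩
    · obtain ⟨L, hLn⟩ : ∃ L, L = Nat.log 2 n := ⟨_, rfl⟩
      rw [← hLn] at hL ⊢
      obtain ⟨C, hC⟩ : ∃ C, C = (L - 400) / 11 := ⟨_, rfl⟩
      obtain ⟨m, hm⟩ : ∃ m, m = C + C / 10 + 40 := ⟨_, rfl⟩
      have hm10 : 10 * m ≤ L := by omega
      have hn0 : n ≠ 0 := by
        rintro rfl
        simp at hLn
        omega
      have hkn : 2 ^ (4 * m) * 2 ^ (6 * m) ≤ n := by
        rw [← pow_add]
        have h0 : 4 * m + 6 * m ≤ Nat.log 2 n := by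
          rw [← hLn]
          omega
        exact (Nat.pow_le_pow_right Nat.two_pos h0).trans (Nat.pow_log_le_self 2 hn0)
      have hcol := col C m (by omega) (by omega)
        ((p1 C).trans (Nat.pow_le_pow_right Nat.two_pos (by omega))) (by
          calc 2 ^ C * (2 * C + 2) ≤ 2 ^ C * 2 ^ (C / 10 + 40) := Nat.mul_le_mul_left _ (p2 C)
            _ = 2 ^ m := by rw [← pow_add, hm, add_assoc])
      obtain ⟨f, hf⟩ := lift C _ n hkn (base C m _ rfl hcol.2)
      refine ⟨f, fun i S hne hS => ?_⟩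
      have h1 := hf i S hne hS
      omega
  obtain ⟨f, hf⟩ := main
  refine ⟨fun i => {x | f x = i}, ?_, ?_, hf⟩
  · ext x
    simp only [Set.mem_iUnion, Set.mem_ofPred_eq, exists_eq', Set.mem_univ]
  · intro i j hij
    rw [Set.disjoint_left]
    intro x hx hy
    exact hij (hx.symm.trans hy)

end Pool.Agent.Results.MP_0f9876_co.SixteenClasses
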